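import Mathlib

set_option autoImplicit false

namespace Pool.Agent.Results.MP_efcf90_co.NoRank

open Finset

/-- `le` is a partial order making the abelian group `A` an additive poset. -/
def IsAddPoset {A : Type} [AddCommGroup A] (le : A → A → Prop) : Prop :=
  (∀ a, le a a) ∧ (∀ a b, le a b → le b a → a = b) ∧ (∀ a b c, le a b → le b c → le a c) ∧
    (∀ a b c, le b a → le c a → le (b + c) a) ∧ ∀ a b c, le a b → le a c → le a (a + b + c)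

open Classical in
/-- The alternating sum over nonempty subsets of `K`. -/
noncomputable def altSum {A : Type} [AddCommGroup A] (r : A → ℕ) (K : Finset A) : ℤ :=
  ∑ J ∈ K.powerset with J.Nonempty, (-1) ^ (J.card + 1) * (r (∑ a ∈ J, a) : ℤ)

/-- Ranks of an additive poset. -/
def IsRank {A : Type} [AddCommGroup A] (le : A → A → Prop) (r : A → ℕ) : Prop :=
  (∀ a, r a = 0 ↔ a = 0) ∧ (∀ a b, le a (a + b) → r (a + b) = r a + r b) ∧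
    ∀ K : Finset A, K.Nonempty → 0 ≤ altSum r K ∧ 2 ^ (K.card - 1) ∣ altSum r K

abbrev V : Type := ZMod 2 × ZMod 2 × ZMod 2 × ZMod 2

def rel : List (V × V) :=
  [((1, 0, 0, 0), (0, 1, 1, 1)), ((0, 0, 1, 0), (1, 0, 0, 1)),
   ((1, 0, 1, 0), (1, 1, 0, 0)), ((0, 1, 1, 0), (1, 1, 0, 0)),
   ((0, 0, 0, 1), (0, 1, 0, 0)), ((0, 1, 0, 1), (0, 1, 0, 0)),
   ((1, 1, 0, 1), (1, 1, 1, 0)), ((0, 0, 1, 1), (1, 1, 1, 0)),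
   ((1, 0, 1, 1), (1, 0, 0, 1)), ((1, 1, 1, 1), (0, 1, 1, 1))]

def le0 (a b : V) : Prop := a = 0 ∨ a = b ∨ (a, b) ∈ rel

instance : DecidableRel le0 := fun a b => by unfold le0; infer_instance

lemma addPoset : IsAddPoset le0 := by
  refine ⟨?_, ?_, ?_, ?_, ?_⟩ <;> decide +kernel

lemma alt_eq (r : V → ℕ) (h0 : r 0 = 0) (K : Finset V) : altSum r K =
    ∑ x : V, (∑ J ∈ K.powerset, if ∑ a ∈ J, a = x then (-1 : ℤ) ^ (J.card + 1) else 0) * r x := by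
  simp only [sum_mul]
  rw [sum_comm, altSum, sum_filter]
  refine sum_congr (by congr) fun J _ => ?_
  simp only [ite_mul, zero_mul, sum_ite_eq, mem_univ, if_true]
  split_ifs with h
  · rfl
  · rw [not_nonempty_iff_eq_empty.1 h]; simp [h0]

def sg (f x : V) : ℤ :=
  if f.1 * x.1 + f.2.1 * x.2.1 + f.2.2.1 * x.2.2.1 + f.2.2.2 * x.2.2.2 = 1 then 1 else -1

def bas (f : V) : Finset V :=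
  if f = (1, 0, 0, 0) then {(1, 0, 0, 0), (1, 1, 0, 0), (1, 0, 1, 0), (1, 0, 0, 1)} else
  if f = (0, 1, 0, 0) then {(0, 1, 0, 0), (1, 1, 0, 0), (0, 1, 1, 0), (0, 1, 0, 1)} else
  if f = (1, 1, 0, 0) then {(1, 0, 0, 0), (0, 1, 0, 0), (1, 0, 1, 0), (1, 0, 0, 1)} else
  if f = (0, 0, 1, 0) then {(0, 0, 1, 0), (1, 0, 1, 0), (0, 1, 1, 0), (0, 0, 1, 1)} else
  if f = (1, 0, 1, 0) then {(1, 0, 0, 0), (1, 1, 0, 0), (0, 0, 1, 0), (1, 0, 0, 1)} else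
  if f = (0, 1, 1, 0) then {(0, 1, 0, 0), (1, 1, 0, 0), (0, 0, 1, 0), (0, 1, 0, 1)} else
  if f = (1, 1, 1, 0) then {(1, 0, 0, 0), (0, 1, 0, 0), (0, 0, 1, 0), (1, 0, 0, 1)} else
  if f = (0, 0, 0, 1) then {(0, 0, 0, 1), (1, 0, 0, 1), (0, 1, 0, 1), (0, 0, 1, 1)} else
  if f = (1, 0, 0, 1) then {(1, 0, 0, 0), (1, 1, 0, 0), (1, 0, 1, 0), (0, 0, 0, 1)} else
  if f = (0, 1, 0, 1) then {(0, 1, 0, 0), (1, 1, 0, 0), (0, 1, 1, 0), (0, 0, 0, 1)} else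
  if f = (1, 1, 0, 1) then {(1, 0, 0, 0), (0, 1, 0, 0), (1, 0, 1, 0), (0, 0, 0, 1)} else
  if f = (0, 0, 1, 1) then {(0, 0, 1, 0), (1, 0, 1, 0), (0, 1, 1, 0), (0, 0, 0, 1)} else
  if f = (1, 0, 1, 1) then {(1, 0, 0, 0), (1, 1, 0, 0), (0, 0, 1, 0), (0, 0, 0, 1)} else
  if f = (0, 1, 1, 1) then {(0, 1, 0, 0), (1, 1, 0, 0), (0, 0, 1, 0), (0, 0, 0, 1)} else
  {(1, 0, 0, 0), (0, 1, 0, 0), (0, 0, 1, 0), (0, 0, 0, 1)}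

lemma bas_spec : ∀ f : V, f ≠ 0 → (bas f).Nonempty ∧ ∀ x : V,
    (∑ J ∈ (bas f).powerset, if ∑ a ∈ J, a = x then (-1 : ℤ) ^ (J.card + 1) else 0) = sg f x := by
  decide +kernel

theorem result : ∃ (A : Type) (_ : AddCommGroup A) (_ : Finite A) (le : A → A → Prop),
    IsAddPoset le ∧ ¬ ∃ r : A → ℕ, IsRank le r := by
  refine ⟨V, inferInstance, inferInstance, le0, addPoset, ?_⟩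
  rintro ⟨r, h1, h2, h3⟩
  have h0 : r 0 = 0 := (h1 0).2 rfl
  have hu : (univ : Finset V) = {(0, 0, 0, 0), (1, 0, 0, 0), (0, 1, 0, 0), (1, 1, 0, 0), (0, 0, 1, 0), (1, 0, 1, 0), (0, 1, 1, 0), (1, 1, 1, 0), (0, 0, 0, 1), (1, 0, 0, 1), (0, 1, 0, 1), (1, 1, 0, 1), (0, 0, 1, 1), (1, 0, 1, 1), (0, 1, 1, 1), (1, 1, 1, 1)} := by decide +kernel
  have hf : ∀ f : V, f ≠ 0 → 0 ≤ sg f (0, 0, 0, 0) * r (0, 0, 0, 0) + sg f (1, 0, 0, 0) * r (1, 0, 0, 0) + sg f (0, 1, 0, 0) * r (0, 1, 0, 0) + sg f (1, 1, 0, 0) * r (1, 1, 0, 0) + sg f (0, 0, 1, 0) * r (0, 0, 1, 0) + sg f (1, 0, 1, 0) * r (1, 0, 1, 0) + sg f (0, 1, 1, 0) * r (0, 1, 1, 0) + sg f (1, 1, 1, 0) * r (1, 1, 1, 0) + sg f (0, 0, 0, 1) * r (0, 0, 0, 1) + sg f (1, 0, 0, 1) * r (1, 0, 0, 1) + sg f (0,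 1, 0, 1) * r (0, 1, 0, 1) + sg f (1, 1, 0, 1) * r (1, 1, 0, 1) + sg f (0, 0, 1, 1) * r (0, 0, 1, 1) + sg f (1, 0, 1, 1) * r (1, 0, 1, 1) + sg f (0, 1, 1, 1) * r (0, 1, 1, 1) + sg f (1, 1, 1, 1) * r (1, 1, 1, 1) := by
    intro f hf
    have := (h3 _ (bas_spec f hf).1).1
    rw [alt_eq r h0] at this
    simp only [(bas_spec f hf).2] at this
    rw [hu] at this
    repeat rw [sum_insert (by decide)] at this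
    rw [sum_singleton] at this
    linarith
  have z : r (0, 0, 0, 0) = 0 := h0
  have p : r (1, 0, 0, 0) ≠ 0 := fun h => absurd ((h1 _).1 h) (by decide)
  have m1 : 0 ≤ (-1 : ℤ) * r (0, 0, 0, 0) + (1 : ℤ) * r (1, 0, 0, 0) + (-1 : ℤ) * r (0, 1, 0, 0) + (1 : ℤ) * r (1, 1, 0, 0) + (-1 : ℤ) * r (0, 0, 1, 0) + (1 : ℤ) * r (1, 0, 1, 0) + (-1 : ℤ) * r (0, 1, 1, 0) + (1 : ℤ) * r (1, 1, 1, 0) + (-1 : ℤ) * r (0, 0, 0, 1) + (1 : ℤ) * r (1, 0, 0, 1) + (-1 : ℤ) * r (0, 1, 0, 1) + (1 : ℤ) * r (1, 1, 0, 1) + (-1 : ℤ) * r (0, 0, 1, 1) + (1 : ℤ) * r (1, 0, 1, 1) + (-1 : ℤ) * r (0, 1, 1, 1) + (1 : ℤ) * r (1, 1, 1, 1) :=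
    hf (1, 0, 0, 0) (by decide)
  have m2 : 0 ≤ (-1 : ℤ) * r (0, 0, 0, 0) + (-1 : ℤ) * r (1, 0, 0, 0) + (1 : ℤ) * r (0, 1, 0, 0) + (1 : ℤ) * r (1, 1, 0, 0) + (-1 : ℤ) * r (0, 0, 1, 0) + (-1 : ℤ) * r (1, 0, 1, 0) + (1 : ℤ) * r (0, 1, 1, 0) + (1 : ℤ) * r (1, 1, 1, 0) + (-1 : ℤ) * r (0, 0, 0, 1) + (-1 : ℤ) * r (1, 0, 0, 1) + (1 : ℤ) * r (0, 1, 0, 1) + (1 : ℤ) * r (1, 1, 0, 1) + (-1 : ℤ) * r (0, 0, 1, 1) + (-1 : ℤ) * r (1, 0, 1, 1) + (1 : ℤ) * r (0, 1, 1, 1) + (1 : ℤ) * r (1, 1, 1, 1) :=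
    hf (0, 1, 0, 0) (by decide)
  have m3 : 0 ≤ (-1 : ℤ) * r (0, 0, 0, 0) + (1 : ℤ) * r (1, 0, 0, 0) + (1 : ℤ) * r (0, 1, 0, 0) + (-1 : ℤ) * r (1, 1, 0, 0) + (-1 : ℤ) * r (0, 0, 1, 0) + (1 : ℤ) * r (1, 0, 1, 0) + (1 : ℤ) * r (0, 1, 1, 0) + (-1 : ℤ) * r (1, 1, 1, 0) + (-1 : ℤ) * r (0, 0, 0, 1) + (1 : ℤ) * r (1, 0, 0, 1) + (1 : ℤ) * r (0, 1, 0, 1) + (-1 : ℤ) * r (1, 1, 0, 1) + (-1 : ℤ) * r (0, 0, 1, 1) + (1 : ℤ) * r (1, 0, 1, 1) + (1 : ℤ) * r (0, 1, 1, 1) + (-1 : ℤ) * r (1, 1, 1, 1) :=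
    hf (1, 1, 0, 0) (by decide)
  have m4 : 0 ≤ (-1 : ℤ) * r (0, 0, 0, 0) + (-1 : ℤ) * r (1, 0, 0, 0) + (-1 : ℤ) * r (0, 1, 0, 0) + (-1 : ℤ) * r (1, 1, 0, 0) + (1 : ℤ) * r (0, 0, 1, 0) + (1 : ℤ) * r (1, 0, 1, 0) + (1 : ℤ) * r (0, 1, 1, 0) + (1 : ℤ) * r (1, 1, 1, 0) + (-1 : ℤ) * r (0, 0, 0, 1) + (-1 : ℤ) * r (1, 0, 0, 1) + (-1 : ℤ) * r (0, 1, 0, 1) + (-1 : ℤ) * r (1, 1, 0, 1) + (1 : ℤ) * r (0, 0, 1, 1) + (1 : ℤ) * r (1, 0, 1, 1) + (1 : ℤ) * r (0, 1, 1, 1) + (1 : ℤ) * r (1, 1, 1, 1) :=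
    hf (0, 0, 1, 0) (by decide)
  have m5 : 0 ≤ (-1 : ℤ) * r (0, 0, 0, 0) + (1 : ℤ) * r (1, 0, 0, 0) + (-1 : ℤ) * r (0, 1, 0, 0) + (1 : ℤ) * r (1, 1, 0, 0) + (1 : ℤ) * r (0, 0, 1, 0) + (-1 : ℤ) * r (1, 0, 1, 0) + (1 : ℤ) * r (0, 1, 1, 0) + (-1 : ℤ) * r (1, 1, 1, 0) + (-1 : ℤ) * r (0, 0, 0, 1) + (1 : ℤ) * r (1, 0, 0, 1) + (-1 : ℤ) * r (0, 1, 0, 1) + (1 : ℤ) * r (1, 1, 0, 1) + (1 : ℤ) * r (0, 0, 1, 1) + (-1 : ℤ) * r (1, 0, 1, 1) + (1 : ℤ) * r (0, 1, 1, 1) + (-1 : ℤ) * r (1, 1, 1, 1) :=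
    hf (1, 0, 1, 0) (by decide)
  have m6 : 0 ≤ (-1 : ℤ) * r (0, 0, 0, 0) + (-1 : ℤ) * r (1, 0, 0, 0) + (1 : ℤ) * r (0, 1, 0, 0) + (1 : ℤ) * r (1, 1, 0, 0) + (1 : ℤ) * r (0, 0, 1, 0) + (1 : ℤ) * r (1, 0, 1, 0) + (-1 : ℤ) * r (0, 1, 1, 0) + (-1 : ℤ) * r (1, 1, 1, 0) + (-1 : ℤ) * r (0, 0, 0, 1) + (-1 : ℤ) * r (1, 0, 0, 1) + (1 : ℤ) * r (0, 1, 0, 1) + (1 : ℤ) * r (1, 1, 0, 1) + (1 : ℤ) * r (0, 0, 1, 1) + (1 : ℤ) * r (1, 0, 1, 1) + (-1 : ℤ) * r (0, 1, 1, 1) + (-1 : ℤ) * r (1, 1, 1, 1) :=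
    hf (0, 1, 1, 0) (by decide)
  have m7 : 0 ≤ (-1 : ℤ) * r (0, 0, 0, 0) + (1 : ℤ) * r (1, 0, 0, 0) + (1 : ℤ) * r (0, 1, 0, 0) + (-1 : ℤ) * r (1, 1, 0, 0) + (1 : ℤ) * r (0, 0, 1, 0) + (-1 : ℤ) * r (1, 0, 1, 0) + (-1 : ℤ) * r (0, 1, 1, 0) + (1 : ℤ) * r (1, 1, 1, 0) + (-1 : ℤ) * r (0, 0, 0, 1) + (1 : ℤ) * r (1, 0, 0, 1) + (1 : ℤ) * r (0, 1, 0, 1) + (-1 : ℤ) * r (1, 1, 0, 1) + (1 : ℤ) * r (0, 0, 1, 1) + (-1 : ℤ) * r (1, 0, 1, 1) + (-1 : ℤ) * r (0, 1, 1, 1) + (1 : ℤ) * r (1, 1, 1, 1) :=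
    hf (1, 1, 1, 0) (by decide)
  have m8 : 0 ≤ (-1 : ℤ) * r (0, 0, 0, 0) + (-1 : ℤ) * r (1, 0, 0, 0) + (-1 : ℤ) * r (0, 1, 0, 0) + (-1 : ℤ) * r (1, 1, 0, 0) + (-1 : ℤ) * r (0, 0, 1, 0) + (-1 : ℤ) * r (1, 0, 1, 0) + (-1 : ℤ) * r (0, 1, 1, 0) + (-1 : ℤ) * r (1, 1, 1, 0) + (1 : ℤ) * r (0, 0, 0, 1) + (1 : ℤ) * r (1, 0, 0, 1) + (1 : ℤ) * r (0, 1, 0, 1) + (1 : ℤ) * r (1, 1, 0, 1) + (1 : ℤ) * r (0, 0, 1, 1) + (1 : ℤ) * r (1, 0, 1, 1) + (1 : ℤ) * r (0, 1, 1, 1) + (1 : ℤ) * r (1, 1, 1, 1) :=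
    hf (0, 0, 0, 1) (by decide)
  have m9 : 0 ≤ (-1 : ℤ) * r (0, 0, 0, 0) + (1 : ℤ) * r (1, 0, 0, 0) + (-1 : ℤ) * r (0, 1, 0, 0) + (1 : ℤ) * r (1, 1, 0, 0) + (-1 : ℤ) * r (0, 0, 1, 0) + (1 : ℤ) * r (1, 0, 1, 0) + (-1 : ℤ) * r (0, 1, 1, 0) + (1 : ℤ) * r (1, 1, 1, 0) + (1 : ℤ) * r (0, 0, 0, 1) + (-1 : ℤ) * r (1, 0, 0, 1) + (1 : ℤ) * r (0, 1, 0, 1) + (-1 : ℤ) * r (1, 1, 0, 1) + (1 : ℤ) * r (0, 0, 1, 1) + (-1 : ℤ) * r (1, 0, 1, 1) + (1 : ℤ) * r (0, 1, 1, 1) + (-1 : ℤ) * r (1, 1, 1, 1) :=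
    hf (1, 0, 0, 1) (by decide)
  have m10 : 0 ≤ (-1 : ℤ) * r (0, 0, 0, 0) + (-1 : ℤ) * r (1, 0, 0, 0) + (1 : ℤ) * r (0, 1, 0, 0) + (1 : ℤ) * r (1, 1, 0, 0) + (-1 : ℤ) * r (0, 0, 1, 0) + (-1 : ℤ) * r (1, 0, 1, 0) + (1 : ℤ) * r (0, 1, 1, 0) + (1 : ℤ) * r (1, 1, 1, 0) + (1 : ℤ) * r (0, 0, 0, 1) + (1 : ℤ) * r (1, 0, 0, 1) + (-1 : ℤ) * r (0, 1, 0, 1) + (-1 : ℤ) * r (1, 1, 0, 1) + (1 : ℤ) * r (0, 0, 1, 1) + (1 : ℤ) * r (1, 0, 1, 1) + (-1 : ℤ) * r (0, 1, 1, 1) + (-1 : ℤ) * r (1, 1, 1, 1) :=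
    hf (0, 1, 0, 1) (by decide)
  have m11 : 0 ≤ (-1 : ℤ) * r (0, 0, 0, 0) + (1 : ℤ) * r (1, 0, 0, 0) + (1 : ℤ) * r (0, 1, 0, 0) + (-1 : ℤ) * r (1, 1, 0, 0) + (-1 : ℤ) * r (0, 0, 1, 0) + (1 : ℤ) * r (1, 0, 1, 0) + (1 : ℤ) * r (0, 1, 1, 0) + (-1 : ℤ) * r (1, 1, 1, 0) + (1 : ℤ) * r (0, 0, 0, 1) + (-1 : ℤ) * r (1, 0, 0, 1) + (-1 : ℤ) * r (0, 1, 0, 1) + (1 : ℤ) * r (1, 1, 0, 1) + (1 : ℤ) * r (0, 0, 1, 1) + (-1 : ℤ) * r (1, 0, 1, 1) + (-1 : ℤ) * r (0, 1, 1, 1) + (1 : ℤ) * r (1, 1, 1, 1) :=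
    hf (1, 1, 0, 1) (by decide)
  have m12 : 0 ≤ (-1 : ℤ) * r (0, 0, 0, 0) + (-1 : ℤ) * r (1, 0, 0, 0) + (-1 : ℤ) * r (0, 1, 0, 0) + (-1 : ℤ) * r (1, 1, 0, 0) + (1 : ℤ) * r (0, 0, 1, 0) + (1 : ℤ) * r (1, 0, 1, 0) + (1 : ℤ) * r (0, 1, 1, 0) + (1 : ℤ) * r (1, 1, 1, 0) + (1 : ℤ) * r (0, 0, 0, 1) + (1 : ℤ) * r (1, 0, 0, 1) + (1 : ℤ) * r (0, 1, 0, 1) + (1 : ℤ) * r (1, 1, 0, 1) + (-1 : ℤ) * r (0, 0, 1, 1) + (-1 : ℤ) * r (1, 0, 1, 1) + (-1 : ℤ) * r (0, 1, 1, 1) + (-1 : ℤ) * r (1, 1, 1, 1) :=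
    hf (0, 0, 1, 1) (by decide)
  have m13 : 0 ≤ (-1 : ℤ) * r (0, 0, 0, 0) + (1 : ℤ) * r (1, 0, 0, 0) + (-1 : ℤ) * r (0, 1, 0, 0) + (1 : ℤ) * r (1, 1, 0, 0) + (1 : ℤ) * r (0, 0, 1, 0) + (-1 : ℤ) * r (1, 0, 1, 0) + (1 : ℤ) * r (0, 1, 1, 0) + (-1 : ℤ) * r (1, 1, 1, 0) + (1 : ℤ) * r (0, 0, 0, 1) + (-1 : ℤ) * r (1, 0, 0, 1) + (1 : ℤ) * r (0, 1, 0, 1) + (-1 : ℤ) * r (1, 1, 0, 1) + (-1 : ℤ) * r (0, 0, 1, 1) + (1 : ℤ) * r (1, 0, 1, 1) + (-1 : ℤ) * r (0, 1, 1, 1) + (1 : ℤ) * r (1, 1, 1, 1) :=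
    hf (1, 0, 1, 1) (by decide)
  have m14 : 0 ≤ (-1 : ℤ) * r (0, 0, 0, 0) + (-1 : ℤ) * r (1, 0, 0, 0) + (1 : ℤ) * r (0, 1, 0, 0) + (1 : ℤ) * r (1, 1, 0, 0) + (1 : ℤ) * r (0, 0, 1, 0) + (1 : ℤ) * r (1, 0, 1, 0) + (-1 : ℤ) * r (0, 1, 1, 0) + (-1 : ℤ) * r (1, 1, 1, 0) + (1 : ℤ) * r (0, 0, 0, 1) + (1 : ℤ) * r (1, 0, 0, 1) + (-1 : ℤ) * r (0, 1, 0, 1) + (-1 : ℤ) * r (1, 1, 0, 1) + (-1 : ℤ) * r (0, 0, 1, 1) + (-1 : ℤ) * r (1, 0, 1, 1) + (1 : ℤ) * r (0, 1, 1, 1) + (1 : ℤ) * r (1, 1, 1, 1) :=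
    hf (0, 1, 1, 1) (by decide)
  have m15 : 0 ≤ (-1 : ℤ) * r (0, 0, 0, 0) + (1 : ℤ) * r (1, 0, 0, 0) + (1 : ℤ) * r (0, 1, 0, 0) + (-1 : ℤ) * r (1, 1, 0, 0) + (1 : ℤ) * r (0, 0, 1, 0) + (-1 : ℤ) * r (1, 0, 1, 0) + (-1 : ℤ) * r (0, 1, 1, 0) + (1 : ℤ) * r (1, 1, 1, 0) + (1 : ℤ) * r (0, 0, 0, 1) + (-1 : ℤ) * r (1, 0, 0, 1) + (-1 : ℤ) * r (0, 1, 0, 1) + (1 : ℤ) * r (1, 1, 0, 1) + (-1 : ℤ) * r (0, 0, 1, 1) + (1 : ℤ) * r (1, 0, 1, 1) + (1 : ℤ) * r (0, 1, 1, 1) + (-1 : ℤ) * r (1, 1, 1, 1) :=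
    hf (1, 1, 1, 1) (by decide)
  have i0 : r (0, 1, 1, 1) = r (1, 0, 0, 0) + r (1, 1, 1, 1) := h2 (1, 0, 0, 0) (1, 1, 1, 1) (by decide)
  have i1 : r (1, 0, 0, 1) = r (0, 0, 1, 0) + r (1, 0, 1, 1) := h2 (0, 0, 1, 0) (1, 0, 1, 1) (by decide)
  have i2 : r (1, 1, 0, 0) = r (1, 0, 1, 0) + r (0, 1, 1, 0) := h2 (1, 0, 1, 0) (0, 1, 1, 0) (by decide)
  have i3 : r (0, 1, 0, 0) = r (0, 0, 0, 1) + r (0, 1, 0, 1) := h2 (0, 0, 0, 1) (0, 1, 0, 1) (by decide)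
  have i4 : r (1, 1, 1, 0) = r (1, 1, 0, 1) + r (0, 0, 1, 1) := h2 (1, 1, 0, 1) (0, 0, 1, 1) (by decide)
  have p' : (1 : ℤ) ≤ r (1, 0, 0, 0) := by omega
  zify at z i0 i1 i2 i3 i4
  linarith

end Pool.Agent.Results.MP_efcf90_co.NoRank
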